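import Pool.Agent.H642R3.QS.Colour

set_option autoImplicit false

namespace Pool.Agent.Results.MP_f71fe7_co.IndexTwoCosets

open Finset

/-- `S` is a dominating set of squares of the queens graph `Q_n` (squares `(i,j)`, `0 ≤ i, j < n`). -/
def Dominating (n : ℕ) (S : Finset (ℕ × ℕ)) : Prop :=
  S ⊆ range n ×ˢ range n ∧
  ∀ x ∈ range n ×ˢ range n, x ∈ S ∨
    ∃ q ∈ S, x.1 = q.1 ∨ x.2 = q.2 ∨ x.1 + x.2 = q.1 + q.2 ∨ x.1 + q.2 = q.1 + x.2

/-- For `n ≥ 10^9` let `S` be a dominating set of `Q_n`, independent or not. If all but at most `n / 10^10`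
members of `S` are in the columns of one parity, or in the rows of one parity, or on the squares of one
colour, then `S` has more than `(1/2 + 10^(-9)) n` members. If all but at most `n / 10^7` members of `S` are
in one parity class `(a mod 2, b mod 2)`, then `S` has more than `(1/2 + 10^(-7)) n` members. -/
theorem result (n : ℕ) (hn : 10 ^ 9 ≤ n) (S : Finset (ℕ × ℕ)) (hS : Dominating n S) (a b : ℕ) :
    ((10 ^ 10 * (S.filter (fun q => ¬ q.1 % 2 = a % 2)).card ≤ n ∨
      10 ^ 10 * (S.filter (fun q => ¬ q.2 % 2 = a % 2)).card ≤ n ∨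
      10 ^ 10 * (S.filter (fun q => ¬ (q.1 + q.2) % 2 = a % 2)).card ≤ n) →
      (1 / 2 + 1 / 10 ^ 9 : ℚ) * n < S.card) ∧
    (10 ^ 7 * (S.filter (fun q => ¬ (q.1 % 2 = a % 2 ∧ q.2 % 2 = b % 2))).card ≤ n →
      (1 / 2 + 1 / 10 ^ 7 : ℚ) * n < S.card) := by
  classical
  obtain ⟨hsub, hdom⟩ := hS
  set φ : ℕ × ℕ → ℤ × ℤ := fun q => ((q.1 : ℤ), (q.2 : ℤ)) with hφ
  have hinj : Function.Injective φ := by
    intro p q h
    simp only [hφ, Prod.mk.injEq, Nat.cast_inj] at h
    exact Prod.ext h.1 h.2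
  have hS' : ∀ q ∈ S.image φ, 0 ≤ q.1 ∧ q.1 < n ∧ 0 ≤ q.2 ∧ q.2 < n := by
    intro q hq
    obtain ⟨p, hp, rfl⟩ := mem_image.1 hq
    have := hsub hp
    rw [mem_product, mem_range, mem_range] at this
    simp only [hφ]
    omega
  have hdom' : ∀ x y : ℤ, 0 ≤ x → x < n → 0 ≤ y → y < n →
      ∃ q ∈ S.image φ, x = q.1 ∨ y = q.2 ∨ x + y = q.1 + q.2 ∨ x + q.2 = q.1 + y := by
    intro x y h1 h2 h3 h4
    have hx : (x.toNat, y.toNat) ∈ range n ×ˢ range n := by
      rw [mem_product, mem_range, mem_range]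
      simp only
      omega
    have key : ∃ q ∈ S, x.toNat = q.1 ∨ y.toNat = q.2 ∨ x.toNat + y.toNat = q.1 + q.2 ∨
        x.toNat + q.2 = q.1 + y.toNat := by
      rcases hdom _ hx with h | h
      · exact ⟨_, h, Or.inl rfl⟩
      · exact h
    obtain ⟨q, hq, h⟩ := key
    refine ⟨φ q, mem_image.2 ⟨q, hq, rfl⟩, ?_⟩
    simp only [hφ]
    omega
  have hcard : (S.image φ).card = S.card := card_image_of_injective _ hinj
  have hfil : ∀ (P : ℤ × ℤ → Prop) (Q : ℕ × ℕ → Prop) [DecidablePred P] [DecidablePred Q],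
      (∀ q, P (φ q) ↔ Q q) → ((S.image φ).filter P).card = (S.filter Q).card := by
    intro P Q _ _ h
    rw [filter_image, card_image_of_injective _ hinj]
    congr 1
    apply filter_congr
    intro q _
    exact h q
  norm_num at hn
  have ha : ((a % 2 : ℕ) : ℤ) = 0 ∨ ((a % 2 : ℕ) : ℤ) = 1 := by omega
  have hb : ((b % 2 : ℕ) : ℤ) = 0 ∨ ((b % 2 : ℕ) : ℤ) = 1 := by omega
  refine ⟨?_, ?_⟩
  · intro h
    have hmain : 1000000002 * n < 2000000000 * (S.image φ).card := by
      rcases h with h | h | h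
      · have := Pool.Agent.H642R3.QS.cols hn (S.image φ) hS' hdom' ((a % 2 : ℕ) : ℤ) ha (by
          rw [hfil _ (fun q => ¬ q.1 % 2 = a % 2) (by intro q; simp only [hφ]; omega)]
          norm_num at h
          omega)
        omega
      · have := Pool.Agent.H642R3.QS.rows hn (S.image φ) hS' hdom' ((a % 2 : ℕ) : ℤ) ha (by
          rw [hfil _ (fun q => ¬ q.2 % 2 = a % 2) (by intro q; simp only [hφ]; omega)]
          norm_num at h
          omega)
        omega
      · exact Pool.Agent.H642R3.QS.colour hn (S.image φ) hS' hdom' ((a % 2 : ℕ) : ℤ) ha (by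
          rw [hfil _ (fun q => ¬ (q.1 + q.2) % 2 = a % 2) (by intro q; simp only [hφ]; omega)]
          norm_num at h
          omega)
    rw [hcard] at hmain
    have h2 : ((1000000002 * n : ℕ) : ℚ) < ((2000000000 * S.card : ℕ) : ℚ) := by exact_mod_cast hmain
    push_cast at h2
    linarith
  · intro h
    have hmain := Pool.Agent.H642R3.QS.board (n := n) (by omega) (S.image φ) hS' hdom'
      ((a % 2 : ℕ) : ℤ) ((b % 2 : ℕ) : ℤ) ha hb (by
        rw [hfil _ (fun q => ¬ (q.1 % 2 = a % 2 ∧ q.2 % 2 = b % 2)) (by intro q; simp only [hφ]; omega)]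
        have e7 : (10 : ℕ) ^ 7 = 10000000 := by norm_num
        rw [e7] at h
        exact h)
    rw [hcard] at hmain
    have h2 : ((10000002 * n : ℕ) : ℚ) < ((20000000 * S.card : ℕ) : ℚ) := by exact_mod_cast hmain
    push_cast at h2
    linarith

end Pool.Agent.Results.MP_f71fe7_co.IndexTwoCosets
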