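import Pool.Agent.H642R3.QS.Per5

set_option autoImplicit false

namespace Pool.Agent.Results.MP_f71fe7_co.PeriodicLines

open Finset

/-- `S` is a dominating set of squares of the queens graph `Q_n` (squares `(i,j)`, `0 ≤ i, j < n`). -/
def Dominating (n : ℕ) (S : Finset (ℕ × ℕ)) : Prop :=
  S ⊆ range n ×ˢ range n ∧
  ∀ x ∈ range n ×ˢ range n, x ∈ S ∨
    ∃ q ∈ S, x.1 = q.1 ∨ x.2 = q.2 ∨ x.1 + x.2 = q.1 + q.2 ∨ x.1 + q.2 = q.1 + x.2

/-- Let `p ≥ 1`, `n ≥ 10^11 p^2`, let `S` be a dominating set of `Q_n`, independent or not, and let `Γ`, `P` be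
any sets of residues modulo `p`. Suppose that for all but at most `n / (10^11 p^2)` columns `i` (`0 ≤ i < n`),
column `i` is free of members of `S` exactly when `i mod p ∈ Γ`, and that for all but at most
`n / (10^11 p^2)` rows `j`, row `j` is free of members of `S` exactly when `j mod p ∈ P`. Then `S` has more
than `(1/2 + 10^(-12) / p^2) n` members. -/
theorem result (p n : ℕ) (hp : 1 ≤ p) (hn : 10 ^ 11 * p ^ 2 ≤ n) (S : Finset (ℕ × ℕ)) (hS : Dominating n S)
    (Γ P : Finset ℕ)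
    (hΓ : 10 ^ 11 * p ^ 2 * ((range n).filter (fun i => ¬ (i % p ∈ Γ ↔ ∀ q ∈ S, q.1 ≠ i))).card ≤ n)
    (hP : 10 ^ 11 * p ^ 2 * ((range n).filter (fun j => ¬ (j % p ∈ P ↔ ∀ q ∈ S, q.2 ≠ j))).card ≤ n) :
    (1 / 2 + 1 / (10 ^ 12 * p ^ 2) : ℚ) * n < S.card := by
  classical
  obtain ⟨hsub, hdom⟩ := hS
  set φ : ℕ × ℕ → ℤ × ℤ := fun q => ((q.1 : ℤ), (q.2 : ℤ)) with hφ
  have hinj : Function.Injective φ := by
    intro p q h
    simp only [hφ, Prod.mk.injEq, Nat.cast_inj] at h
    exact Prod.ext h.1 h.2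
  have hS' : ∀ q ∈ S.image φ, 0 ≤ q.1 ∧ q.1 < n ∧ 0 ≤ q.2 ∧ q.2 < n := by
    intro q hq
    obtain ⟨p, hp, rfl⟩ := mem_image.1 hq
    have := hsub hp
    rw [mem_product, mem_range, mem_range] at this
    simp only [hφ]
    omega
  have hdom' : ∀ x y : ℤ, 0 ≤ x → x < n → 0 ≤ y → y < n →
      ∃ q ∈ S.image φ, x = q.1 ∨ y = q.2 ∨ x + y = q.1 + q.2 ∨ x + q.2 = q.1 + y := by
    intro x y h1 h2 h3 h4
    have hx : (x.toNat, y.toNat) ∈ range n ×ˢ range n := by
      rw [mem_product, mem_range, mem_range]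
      simp only
      omega
    have key : ∃ q ∈ S, x.toNat = q.1 ∨ y.toNat = q.2 ∨ x.toNat + y.toNat = q.1 + q.2 ∨
        x.toNat + q.2 = q.1 + y.toNat := by
      rcases hdom _ hx with h | h
      · exact ⟨_, h, Or.inl rfl⟩
      · exact h
    obtain ⟨q, hq, h⟩ := key
    refine ⟨φ q, mem_image.2 ⟨q, hq, rfl⟩, ?_⟩
    simp only [hφ]
    omega
  have hcard : (S.image φ).card = S.card := card_image_of_injective _ hinj
  have hfil : ∀ (A : ℤ × ℤ → Prop) (B : ℕ × ℕ → Prop) [DecidablePred A] [DecidablePred B],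
      (∀ q, A (φ q) ↔ B q) → ((S.image φ).filter A).card = (S.filter B).card := by
    intro A B _ _ h
    rw [filter_image, card_image_of_injective _ hinj]
    congr 1
    apply filter_congr
    intro q _
    exact h q
  have e11 : (10 : ℕ) ^ 11 = 100000000000 := by norm_num
  rw [e11] at hn hΓ hP
  have hpp : 1 ≤ p ^ 2 := Nat.one_le_pow _ _ hp
  set D : ℕ := 100000000000 * p ^ 2 with hD
  have hD0 : 0 < D := by omega
  set e : ℕ := n / D with he
  have he1 : 1 ≤ e := by
    rw [he, Nat.le_div_iff_mul_le hD0]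
    omega
  have heD : D * e ≤ n := Nat.mul_div_le n D
  have heD2 : n < D * (e + 1) := Nat.lt_mul_div_succ n hD0
  by_contra hcon
  push Not at hcon
  -- few members
  have hsm : 2 * S.card ≤ n + 2 * e := by
    have hp2 : (1 : ℚ) ≤ (p : ℚ) ^ 2 := by exact_mod_cast hpp
    have h1 : (n : ℚ) ≤ D * (e + 1) := by exact_mod_cast heD2.le
    have h2 : (1 : ℚ) ≤ e := by exact_mod_cast he1
    have h3 : (n : ℚ) / (10 ^ 12 * p ^ 2) ≤ e := by
      rw [div_le_iff₀ (by positivity)]
      rw [hD] at h1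
      push_cast at h1
      nlinarith
    have h4 : (S.card : ℚ) ≤ n / 2 + e := by
      have : (1 / 2 + 1 / (10 ^ 12 * p ^ 2) : ℚ) * n = n / 2 + n / (10 ^ 12 * p ^ 2) := by ring
      linarith
    have h5 : ((2 * S.card : ℕ) : ℚ) ≤ ((n + 2 * e : ℕ) : ℚ) := by push_cast; linarith
    exact_mod_cast h5
  set ZC : Finset ℤ := ((range n).filter (fun i => ¬ (i % p ∈ Γ ↔ ∀ q ∈ S, q.1 ≠ i))).image (fun i : ℕ => (i : ℤ)) with hZC
  set ZR : Finset ℤ := ((range n).filter (fun j => ¬ (j % p ∈ P ↔ ∀ q ∈ S, q.2 ≠ j))).image (fun i : ℕ => (i : ℤ)) with hZR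
  set Γ' : Finset ℤ := ((range p).filter (fun i => i ∈ Γ)).image (fun i : ℕ => (i : ℤ)) with hΓ'
  set P' : Finset ℤ := ((range p).filter (fun i => i ∈ P)).image (fun i : ℕ => (i : ℤ)) with hP'
  have hmem : ∀ (G : Finset ℕ) (i : ℕ), ((i : ℤ) % (p : ℤ) ∈ ((range p).filter (fun i => i ∈ G)).image (fun i : ℕ => (i : ℤ)) ↔ i % p ∈ G) := by
    intro G i
    rw [mem_image]
    constructor
    · rintro ⟨j, hj, hji⟩
      rw [mem_filter] at hj
      have : j = i % p := by
        have h1 : (j : ℤ) = ((i % p : ℕ) : ℤ) := by rw [hji]; push_cast; rfl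
        exact_mod_cast h1
      rw [← this]
      exact hj.2
    · intro hi
      exact ⟨i % p, mem_filter.2 ⟨mem_range.2 (Nat.mod_lt _ hp), hi⟩, by push_cast; rfl⟩
  have hper : Pool.Agent.H642R3.QS.Per n p e (S.image φ) Γ' P' ZC ZR := by
    refine ⟨hp, hS', hdom', by rw [hcard]; exact hsm, ?_, ?_, ?_, ?_, ?_, ?_, ?_⟩
    · refine card_image_le.trans ?_
      rw [he, Nat.le_div_iff_mul_le hD0, mul_comm]
      exact hΓ
    · refine card_image_le.trans ?_
      rw [he, Nat.le_div_iff_mul_le hD0, mul_comm]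
      exact hP
    · intro γ hγ
      obtain ⟨i, hi, rfl⟩ := mem_image.1 hγ
      rw [mem_filter, mem_range] at hi
      omega
    · intro γ hγ
      obtain ⟨i, hi, rfl⟩ := mem_image.1 hγ
      rw [mem_filter, mem_range] at hi
      omega
    · intro x h0 h1 h2
      obtain ⟨i, rfl⟩ := Int.eq_ofNat_of_zero_le h0
      have h3 : i % p ∈ Γ ↔ ∀ q ∈ S, q.1 ≠ i := by
        by_contra hc
        exact h2 (mem_image.2 ⟨i, mem_filter.2 ⟨mem_range.2 (by exact_mod_cast h1), hc⟩, rfl⟩)
      rw [hmem Γ i, h3]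
      constructor
      · intro h q hq
        obtain ⟨q', hq', rfl⟩ := mem_image.1 hq
        have := h q' hq'
        simp only [hφ]
        exact_mod_cast this
      · intro h q hq
        have := h (φ q) (mem_image.2 ⟨q, hq, rfl⟩)
        simp only [hφ] at this
        exact_mod_cast this
    · intro x h0 h1 h2
      obtain ⟨i, rfl⟩ := Int.eq_ofNat_of_zero_le h0
      have h3 : i % p ∈ P ↔ ∀ q ∈ S, q.2 ≠ i := by
        by_contra hc
        exact h2 (mem_image.2 ⟨i, mem_filter.2 ⟨mem_range.2 (by exact_mod_cast h1), hc⟩, rfl⟩)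
      rw [hmem P i, h3]
      constructor
      · intro h q hq
        obtain ⟨q', hq', rfl⟩ := mem_image.1 hq
        have := h q' hq'
        simp only [hφ]
        exact_mod_cast this
      · intro h q hq
        have := h (φ q) (mem_image.2 ⟨q, hq, rfl⟩)
        simp only [hφ] at this
        exact_mod_cast this
    · -- size of `n`
      have h1 : 40 * p * (e + 1) * p = 40 * (p ^ 2 * (e + 1)) := by ring
      have h2 : D * e = 100000000000 * (p ^ 2 * e) := by rw [hD]; ring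
      have h3 : p ^ 2 * (e + 1) ≤ 2 * (p ^ 2 * e) := by nlinarith
      rw [h1]
      omega
  obtain ⟨g, hg, hgx⟩ := hper.column_parity
  have hbad := hper.parity g hg hgx
  have hDe : 100000000000 * e ≤ n := by
    refine le_trans ?_ heD
    rw [hD]
    nlinarith
  have hfin := Pool.Agent.H642R3.QS.cols (n := n) (by omega) (S.image φ) hS' hdom' (1 - g) (by omega) (by omega)
  rw [hcard] at hfin
  omega

end Pool.Agent.Results.MP_f71fe7_co.PeriodicLines
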